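import Pool.Agent.helper68.SF.SpecE

/-!
Project SF, module ENL
-/

set_option autoImplicit false

namespace SF

open MeasureTheory
open scoped ContDiff

theorem ENL_cont {f : ℝ → ℝ → ℝ → ℝ} (hf : Sm f) (s : ℝ) :
    ContinuousOn (fun p : ℝ × ℝ => f s p.1 p.2) {p | 0 < p.2} := by
  have h : ContinuousOn (fun p : ℝ × ℝ × ℝ => f p.1 p.2.1 p.2.2) {p | 0 < p.2.2} :=
    hf.continuousOn
  have h2 : Continuous (fun p : ℝ × ℝ => ((s, p.1, p.2) : ℝ × ℝ × ℝ)) := by fun_prop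
  exact h.comp h2.continuousOn (fun p hp => hp)

theorem ENL_Dm_y {p : ℝ × ℝ} (hp : p ∈ Dm) : 3 / 4 ≤ p.2 ^ 2 := by
  obtain ⟨h1, h2, h3, h4⟩ := hp
  nlinarith

theorem ENL_open : IsOpen Dm := by
  have h1 : IsOpen {p : ℝ × ℝ | 0 < p.1} := isOpen_lt continuous_const continuous_fst
  have h2 : IsOpen {p : ℝ × ℝ | p.1 < 1 / 2} := isOpen_lt continuous_fst continuous_const
  have h3 : IsOpen {p : ℝ × ℝ | 0 < p.2} := isOpen_lt continuous_const continuous_snd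
  have h4 : IsOpen {p : ℝ × ℝ | 1 < p.1 ^ 2 + p.2 ^ 2} :=
    isOpen_lt continuous_const ((continuous_fst.pow 2).add (continuous_snd.pow 2))
  exact h1.inter (h2.inter (h3.inter h4))

theorem ENL_sq {a u : ℝ} (h : |a| ≤ u) : a ^ 2 ≤ u ^ 2 := by
  have h0 := abs_nonneg a
  rw [← sq_abs a]
  exact pow_le_pow_left₀ h0 h 2

theorem ENL_b1 {a C y : ℝ} (hy : 1 ≤ y) (h : |a| ≤ C / y ^ 2) : a ^ 2 ≤ C ^ 2 / y ^ 2 := by
  have h1 := ENL_sq h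
  have h2 : (C / y ^ 2) ^ 2 ≤ C ^ 2 / y ^ 2 := by
    rw [div_pow]
    apply div_le_div_of_nonneg_left (sq_nonneg C) (by positivity)
    have h3 : 1 ≤ y ^ 2 := by nlinarith
    nlinarith
  exact h1.trans h2

theorem ENL_b2 {a C y : ℝ} (hy : 1 ≤ y) (h : |a| ≤ C / y) :
    a ^ 2 / (4 * y ^ 2) ≤ C ^ 2 / y ^ 2 := by
  have h1 := ENL_sq h
  have hy0 : 0 < y ^ 2 := by positivity
  have h2 : (C / y) ^ 2 ≤ C ^ 2 := by
    rw [div_pow]
    apply div_le_self (sq_nonneg C)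
    nlinarith
  calc a ^ 2 / (4 * y ^ 2) ≤ C ^ 2 / (4 * y ^ 2) := by
        apply div_le_div_of_nonneg_right (h1.trans h2)
        positivity
    _ ≤ C ^ 2 / y ^ 2 := by
        apply div_le_div_of_nonneg_left (sq_nonneg C) hy0
        linarith

theorem ENL (hBS : BS_stmt) (hDI : DI_stmt) (hEZ : EZ_stmt) (hPOI : POI_stmt) : ENL_stmt := by
  intro f hf s
  obtain ⟨hS, hX, hY, hd⟩ := hBS f hf.sm
  obtain ⟨C0, hC0⟩ := hf.dec 0 |s|
  obtain ⟨C1, hC1⟩ := hf.dec 1 |s|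
  have hc0 := ENL_cont hf.sm s
  have hcS := ENL_cont hS s
  have hcX := ENL_cont hX s
  have hcY := ENL_cont hY s
  have hy2 : ContinuousOn (fun p : ℝ × ℝ => 4 * p.2 ^ 2) {p | 0 < p.2} := by fun_prop
  have hy2ne : ∀ p ∈ {p : ℝ × ℝ | 0 < p.2}, 4 * p.2 ^ 2 ≠ 0 := by
    intro p hp
    have hp' : 0 < p.2 := hp
    positivity
  have hmeas : MeasurableSet Dm := ENL_open.measurableSet
  have iX : IntegrableOn (fun p : ℝ × ℝ => (dX f s p.1 p.2) ^ 2) Dm := by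
    refine hDI _ (C0 ^ 2) (hcX.pow 2) ?_
    intro p _ hp
    rw [abs_of_nonneg (sq_nonneg _)]
    exact ENL_b1 hp (hC0 s p.1 p.2 le_rfl hp).2.1
  have iY : IntegrableOn (fun p : ℝ × ℝ => (dY f s p.1 p.2) ^ 2) Dm := by
    refine hDI _ (C0 ^ 2) (hcY.pow 2) ?_
    intro p _ hp
    rw [abs_of_nonneg (sq_nonneg _)]
    exact ENL_b1 hp (hC0 s p.1 p.2 le_rfl hp).2.2
  have iF : IntegrableOn (fun p : ℝ × ℝ => (f s p.1 p.2) ^ 2 / (4 * p.2 ^ 2)) Dm := by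
    refine hDI _ (C0 ^ 2) ((hc0.pow 2).div hy2 hy2ne) ?_
    intro p _ hp
    rw [abs_of_nonneg (by positivity)]
    exact ENL_b2 hp (hC0 s p.1 p.2 le_rfl hp).1
  have iS : IntegrableOn (fun p : ℝ × ℝ => (dS f s p.1 p.2) ^ 2 / (4 * p.2 ^ 2)) Dm := by
    refine hDI _ (C1 ^ 2) ((hcS.pow 2).div hy2 hy2ne) ?_
    intro p _ hp
    rw [abs_of_nonneg (by positivity)]
    exact ENL_b2 hp (hC1 s p.1 p.2 le_rfl hp).1
  obtain ⟨iFF, hP⟩ := hPOI 0 (fun p => f s p.1 p.2) (fun p => dX f s p.1 p.2) hc0 hcX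
    (fun x y hy => (hd s x y hy).2.1) (fun y hy => (hEZ f hf s y hy).2.1)
    (by simpa using iX)
  simp only [pow_zero, one_mul] at iFF hP
  have iXY : IntegrableOn
      (fun p : ℝ × ℝ => (dX f s p.1 p.2) ^ 2 + (dY f s p.1 p.2) ^ 2) Dm := iX.add iY
  have hG : ∫ p in Dm, (dX f s p.1 p.2) ^ 2 ≤
      ∫ p in Dm, ((dX f s p.1 p.2) ^ 2 + (dY f s p.1 p.2) ^ 2) := by
    refine setIntegral_mono_on iX iXY hmeas fun p _ => ?_
    have := sq_nonneg (dY f s p.1 p.2)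
    linarith
  have hG0 : 0 ≤ ∫ p in Dm, (dX f s p.1 p.2) ^ 2 :=
    setIntegral_nonneg hmeas fun p _ => sq_nonneg _
  have hE : ∫ p in Dm, ((dX f s p.1 p.2) ^ 2 + (dY f s p.1 p.2) ^ 2 -
      1 / 3 * (f s p.1 p.2) ^ 2) ≤ En f s := by
    unfold En
    refine setIntegral_mono_on (iXY.sub (iFF.const_mul (1 / 3))) (((iS.add iX).add iY).sub iF)
      hmeas fun p hp => ?_
    have hy := ENL_Dm_y hp
    have hy0 : 0 < p.2 := hp.2.2.1
    have h1 : 0 ≤ (dS f s p.1 p.2) ^ 2 / (4 * p.2 ^ 2) := by positivity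
    have h2 : (f s p.1 p.2) ^ 2 / (4 * p.2 ^ 2) ≤ 1 / 3 * (f s p.1 p.2) ^ 2 := by
      rw [div_le_iff₀ (by positivity)]
      have h3 := sq_nonneg (f s p.1 p.2)
      nlinarith
    linarith
  have hE2 : ∫ p in Dm, ((dX f s p.1 p.2) ^ 2 + (dY f s p.1 p.2) ^ 2 -
      1 / 3 * (f s p.1 p.2) ^ 2) = (∫ p in Dm, ((dX f s p.1 p.2) ^ 2 + (dY f s p.1 p.2) ^ 2)) -
      1 / 3 * ∫ p in Dm, (f s p.1 p.2) ^ 2 := by
    rw [← integral_const_mul]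
    exact integral_sub iXY (iFF.const_mul (1 / 3))
  rw [hE2] at hE
  refine ⟨iXY, ?_, iFF, ?_, ?_⟩
  · linarith
  · linarith
  · linarith

end SF
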